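import Pool.Agent.Y581.BD.Core

set_option autoImplicit false

namespace Pool.Agent.Results.MP_5b422c_co.SingleGraphAlmostLinear

open Cardinal Set Filter Pool.Agent.Y581.BD

/-- The chromatic number of a possibly infinite graph: the least cardinality of a set of
colours which admits a proper vertex colouring. -/
noncomputable def cardChromatic {V : Type} (G : SimpleGraph V) : Cardinal.{0} :=
  sInf {κ : Cardinal.{0} | ∃ C : Type, #C = κ ∧ Nonempty (G.Coloring C)}

/-- `bipDeficiency G S` is the least number of edges whose deletion makes the subgraph of `G`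
induced on the finite vertex set `S` bipartite. -/
noncomputable def bipDeficiency {V : Type} (G : SimpleGraph V) (S : Finset V) : ℕ :=
  sInf {m : ℕ | ∃ D : Finset (Sym2 V), D.card = m ∧
    ((G.deleteEdges (D : Set (Sym2 V))).induce (S : Set V)).IsBipartite}

/-- `hG G n` is the maximum of `bipDeficiency G S` over the vertex sets `S` with `n` elements. -/
noncomputable def hG {V : Type} (G : SimpleGraph V) (n : ℕ) : ℕ :=
  sSup {b : ℕ | ∃ S : Finset V, S.card = n ∧ bipDeficiency G S = b}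

/-! ### The number of vertices -/

/-- arities -/
def ar : Bool → Type
  | false => Empty
  | true => ℕ ⊕ (ℕ × ℕ)

/-- objects as well-founded trees -/
def toW : Nd → WType ar
  | Nd.leaf => ⟨false, fun e => nomatch e⟩
  | Nd.mk β m => ⟨true, fun e => match e with
      | Sum.inl n => toW (β n)
      | Sum.inr p => toW (m p.1 p.2)⟩

theorem toW_injective : ∀ u v : Nd, toW u = toW v → u = v := by
  intro u
  induction u with
  | leaf =>
    intro v h
    cases v with
    | leaf => rfl
    | mk β m => simp [toW] at h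
  | mk β m ih1 ih2 =>
    intro v h
    cases v with
    | leaf => simp [toW] at h
    | mk β' m' =>
      simp only [toW, WType.mk.injEq, heq_eq_eq, true_and] at h
      have h1 : β = β' := by
        funext n
        exact ih1 n _ (congrFun h (Sum.inl n))
      have h2 : m = m' := by
        funext i j
        exact ih2 i j _ (congrFun h (Sum.inr (i, j)))
      rw [h1, h2]

theorem mk_Nd_le : #Nd ≤ 𝔠 := by
  refine (Cardinal.mk_le_of_injective (f := toW) (fun u v h => toW_injective u v h)).trans ?_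
  apply WType.cardinalMk_le_of_le
  have h1 : ∀ a : Bool, #(ar a) ≤ ℵ₀ := by
    intro a
    rw [Cardinal.mk_le_aleph0_iff]
    cases a
    · show Countable Empty
      infer_instance
    · show Countable (ℕ ⊕ (ℕ × ℕ))
      infer_instance
  calc Cardinal.sum (fun a : Bool => 𝔠 ^ #(ar a)) ≤ Cardinal.sum (fun _ : Bool => 𝔠) := by
        apply Cardinal.sum_le_sum
        intro a
        calc 𝔠 ^ #(ar a) ≤ 𝔠 ^ ℵ₀ := Cardinal.power_le_power_left Cardinal.continuum_ne_zero (h1 a)
          _ = 𝔠 := Cardinal.continuum_power_aleph0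
    _ = 2 * 𝔠 := by simp
    _ = 𝔠 := Cardinal.nat_mul_continuum (n := 2) (by norm_num)

theorem mk_Vx : #Vx = 𝔠 := by
  have h1 : #Vx = #Nd ^ ℵ₀ := by
    show #(ℕ → ℕ → Nd) = _
    rw [← Cardinal.power_def, ← Cardinal.power_def, ← Cardinal.power_mul]
    simp
  rw [h1]
  apply le_antisymm
  · calc #Nd ^ ℵ₀ ≤ 𝔠 ^ ℵ₀ := Cardinal.power_le_power_right mk_Nd_le
      _ = 𝔠 := Cardinal.continuum_power_aleph0
  · rw [← Cardinal.two_power_aleph0]
    apply Cardinal.power_le_power_right
    rw [Cardinal.two_le_iff]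
    exact ⟨Nd.leaf, Nd.mk (fun _ => Nd.leaf) (fun _ _ => Nd.leaf), by simp⟩

/-! ### The result -/

theorem cardChromatic_GG (s n : ℕ → ℕ) (hN : s 0 < n 0 + (s 0 + 1)) :
    cardChromatic (GG s (fun j => n j + (s j + 1)) hN) = ℵ₁ := by
  apply le_antisymm
  · refine csInf_le' ⟨W, by simp [W], exists_coloring _ _ _⟩
  · refine le_csInf ⟨ℵ₁, W, by simp [W], exists_coloring _ _ _⟩ ?_
    rintro κ ⟨C, rfl, ⟨col⟩⟩
    by_contra hcon
    rw [not_le, Cardinal.lt_aleph_one_iff] at hcon
    have : Countable C := Cardinal.mk_le_aleph0_iff.1 hcon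
    obtain ⟨f, hf⟩ := Countable.exists_injective_nat C
    obtain ⟨k, x, x', h1, h2⟩ := no_coloring s n (fun x => f (col x))
    exact col.valid (show (GG s (fun j => n j + (s j + 1)) hN).Adj x x' from ⟨k, Or.inl h1⟩) (hf h2)

theorem main (g : ℕ → ℕ) (hg : Tendsto g atTop atTop) : ∃ (V : Type) (G : SimpleGraph V),
    #V = 𝔠 ∧ cardChromatic G = ℵ₁ ∧ ∀ n : ℕ, hG G n ≤ g n * n ∧
      ∀ S : Finset V, S.card = n → ∃ D : Finset (Sym2 V), D.card ≤ g n * n ∧
        ((G.deleteEdges (D : Set (Sym2 V))).induce (S : Set V)).IsBipartite := by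
  classical
  have hT : ∀ j : ℕ, ∃ T : ℕ, ∀ n, T ≤ n → j ≤ g n := fun j =>
    Filter.eventually_atTop.1 (hg.eventually_ge_atTop j)
  choose T hT using hT
  let s : ℕ → ℕ := fun k => 2 * (T (k + 1) + k)
  let m : ℕ → ℕ := fun k => 2 * ((s k + 1) * s k)
  have hN0 : s 0 < m 0 + (s 0 + 1) := by omega
  have key : ∀ S : Finset Vx, ∃ D : Finset (Sym2 Vx), D.card ≤ g S.card * S.card ∧
      (((GG s (fun j => m j + (s j + 1)) hN0).deleteEdges
        (D : Set (Sym2 _))).induce (S : Set _)).IsBipartite := by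
    intro S
    have hex : ∃ k, 2 * S.card ≤ s k := ⟨S.card, by simp only [s]; omega⟩
    obtain ⟨D, hD1, hD2⟩ := exists_del s (fun j => m j + (s j + 1)) hN0
      (fun k => by simp only [m]; omega) (Nat.find hex) S (Nat.find_spec hex)
    refine ⟨D, hD1.trans (Nat.mul_le_mul_right _ ?_), hD2⟩
    rcases Nat.eq_zero_or_pos (Nat.find hex) with h0 | h0
    · rw [h0]; exact Nat.zero_le _
    · have h1 := Nat.find_min hex (m := Nat.find hex - 1) (by omega)
      have h2 : T (Nat.find hex) ≤ S.card := by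
        have e : Nat.find hex - 1 + 1 = Nat.find hex := by omega
        simp only [s, e] at h1
        omega
      exact hT _ _ h2
  refine ⟨Vx, GG s (fun j => m j + (s j + 1)) hN0, mk_Vx, cardChromatic_GG s m hN0, fun n => ⟨?_, ?_⟩⟩
  · apply csSup_le'
    rintro b ⟨S, rfl, rfl⟩
    obtain ⟨D, hD1, hD2⟩ := key S
    exact (Nat.sInf_le ⟨D, rfl, hD2⟩ : bipDeficiency _ S ≤ D.card).trans hD1
  · rintro S rfl
    exact key S

/-- (1) For every function `g` tending to infinity, however slowly, there is (in ZFC) a graph on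
continuum many vertices, of chromatic number exactly `ℵ₁`, every `n`-vertex subgraph of which
becomes bipartite after the deletion of at most `g n * n` edges, for all `n`.
(2) In particular one single graph of chromatic number `ℵ₁` satisfies `h_G(n) ≤ n ^ (1 + ε)` for
every `ε > 0` and all sufficiently large `n`. -/
theorem result :
    (∀ g : ℕ → ℕ, Tendsto g atTop atTop → ∃ (V : Type) (G : SimpleGraph V),
      #V = 𝔠 ∧ cardChromatic G = ℵ₁ ∧ ∀ n : ℕ, hG G n ≤ g n * n ∧
        ∀ S : Finset V, S.card = n → ∃ D : Finset (Sym2 V), D.card ≤ g n * n ∧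
          ((G.deleteEdges (D : Set (Sym2 V))).induce (S : Set V)).IsBipartite) ∧
    (∃ (V : Type) (G : SimpleGraph V), #V = 𝔠 ∧ cardChromatic G = ℵ₁ ∧
      ∀ ε : ℝ, 0 < ε → ∀ᶠ n : ℕ in atTop, (hG G n : ℝ) ≤ (n : ℝ) ^ (1 + ε) ∧
        ∀ S : Finset V, S.card = n → ∃ D : Finset (Sym2 V), (D.card : ℝ) ≤ (n : ℝ) ^ (1 + ε) ∧
          ((G.deleteEdges (D : Set (Sym2 V))).induce (S : Set V)).IsBipartite) := by
  refine ⟨main, ?_⟩
  have hlog : Tendsto (fun n : ℕ => Nat.log 2 n) atTop atTop := by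
    rw [Filter.tendsto_atTop]
    intro b
    filter_upwards [Filter.eventually_ge_atTop (2 ^ b)] with n hn
    exact Nat.le_log_of_pow_le (by norm_num) hn
  obtain ⟨V, G, h1, h2, h3⟩ := main _ hlog
  refine ⟨V, G, h1, h2, fun ε hε => ?_⟩
  have hlogε : ∀ᶠ n : ℕ in atTop, ((Nat.log 2 n : ℕ) : ℝ) ≤ (n : ℝ) ^ ε := by
    have h4 : (fun n : ℕ => Real.log (n : ℝ)) =o[atTop] (fun n : ℕ => (n : ℝ) ^ ε) :=
      (isLittleO_log_rpow_atTop hε).comp_tendsto tendsto_natCast_atTop_atTop
    have h5 := h4.bound (show (0 : ℝ) < Real.log 2 from Real.log_pos (by norm_num))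
    filter_upwards [h5, Filter.eventually_ge_atTop 1] with n hn hn1
    have hn0 : (1 : ℝ) ≤ n := by exact_mod_cast hn1
    have h6 : ((Nat.log 2 n : ℕ) : ℝ) * Real.log 2 ≤ Real.log n := by
      have h7 : ((2 : ℝ) ^ (Nat.log 2 n)) ≤ n := by
        exact_mod_cast Nat.pow_log_le_self 2 (by omega)
      have h8 := Real.log_le_log (by positivity) h7
      rwa [Real.log_pow] at h8
    have h9 : (0 : ℝ) < Real.log 2 := Real.log_pos (by norm_num)
    rw [Real.norm_of_nonneg (Real.log_nonneg hn0), Real.norm_of_nonneg (by positivity)] at hn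
    have h10 : ((Nat.log 2 n : ℕ) : ℝ) * Real.log 2 ≤ (n : ℝ) ^ ε * Real.log 2 := by
      linarith
    exact le_of_mul_le_mul_right h10 h9
  filter_upwards [hlogε, Filter.eventually_ge_atTop 1] with n hn hn1
  have hn0 : (1 : ℝ) ≤ n := by exact_mod_cast hn1
  have hb : ((Nat.log 2 n * n : ℕ) : ℝ) ≤ (n : ℝ) ^ (1 + ε) := by
    push_cast
    rw [Real.rpow_add (by linarith), Real.rpow_one, mul_comm]
    exact mul_le_mul_of_nonneg_left hn (by linarith)
  refine ⟨le_trans ?_ hb, fun S hS => ?_⟩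
  · exact_mod_cast (h3 n).1
  · obtain ⟨D, hD1, hD2⟩ := (h3 n).2 S hS
    exact ⟨D, le_trans (by exact_mod_cast hD1) hb, hD2⟩

end Pool.Agent.Results.MP_5b422c_co.SingleGraphAlmostLinear
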